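import Pool.Agent.Work.MP_c41774_al.Full.Answer0

/-!
# The quantum greedy basis is strongly positive and is the lower bound basis

`b ∣ c` or `c ∣ b`, `X` the sequence of quantum cluster variables in the quantum torus.
-/

noncomputable section

namespace Pool.Agent.Results.MP_c41774_al.Answer

open Pool.Agent.Work.MP_c41774_al LaurentPolynomial

/-- Let `b, c ≥ 1` with `b ∣ c` or `c ∣ b`. The quantum cluster variables exist and are unique, the
automorphisms `X_m ↦ X_{m+2}` and (for `b = c`) `X_m ↦ X_{m+1}` exist, for every `a` there is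
exactly one quantum greedy element `G a`, and the quantum greedy basis `G` is strongly positive,
is a lower bound of all strongly positive bases, and is the only strongly positive basis with this
property. -/
theorem result (b c : ℕ) (hb : 0 < b) (hc : 0 < c) (hbc : b ∣ c ∨ c ∣ b) :
    (∃! X : ℤ → QTorus, IsClusterSeq b c X) ∧
    ∀ X : ℤ → QTorus, IsClusterSeq b c X →
      (∃ σ : clusterAlgebra X ≃ₐ[R] clusterAlgebra X,
        ∀ (m : ℤ) (x : clusterAlgebra X), (x : QTorus) = X m → (σ x : QTorus) = X (m + 2)) ∧
      (b = c → ∃ σ : clusterAlgebra X ≃ₐ[R] clusterAlgebra X,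
        ∀ (m : ℤ) (x : clusterAlgebra X), (x : QTorus) = X m → (σ x : QTorus) = X (m + 1)) ∧
      ∃ G : ℤ × ℤ → QTorus, (∀ a x, IsGreedy b c a x ↔ x = G a) ∧ IsLowerBasis b c X G ∧
        ∀ B, IsLowerBasis b c X B → B = G :=
  Pool.Agent.Work.MP_c41774_al.Full.answerAll b c hb hc hbc

end Pool.Agent.Results.MP_c41774_al.Answer
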