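import Pool.Agent.Work.MP_c41774_al.Greedy

/-!
# Strongly positive bases of rank two quantum cluster algebras lie in the cone of the quantum
greedy basis

All definitions (`QTorus`, `IsClusterSeq`, `IsPointed`, `IsGreedy`, `IsStronglyPositive`) are in
`Pool/Agent/Work/MP_c41774_al/{QBin,QTorus,Defs}.lean`. The sequence `X` exists and is unique:
`existsUnique_clusterSeq` in `Pool/Agent/Work/MP_c41774_al/Laurent.lean`; the product formula for
`qb` is `qb_mul_prod` in `QBin.lean`.
-/

noncomputable section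

namespace Pool.Agent.Results.MP_c41774_al.GreedyCone

open Pool.Agent.Work.MP_c41774_al LaurentPolynomial

/-- For all `b, c ≥ 1`, every element `B[a]` of every strongly positive basis `B` of `A_v(b,c)` is
`X[a]` plus a combination of the lower greedy elements `X[a₁ - bp, a₂ - cq]`, `(p,q) ≠ (0,0)`, with
coefficients in `ℤ_{≥0}[v^{±1}]`. -/
theorem result (b c : ℕ) (hb : 0 < b) (hc : 0 < c) (X : ℤ → QTorus) (hX : IsClusterSeq b c X)
    (G : ℤ × ℤ → QTorus) (hG : ∀ a, IsGreedy b c a (G a))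
    (B : ℤ × ℤ → QTorus) (hB : IsStronglyPositive b c X B) (a : ℤ × ℤ) :
    ∃ ρ : (ℕ × ℕ) →₀ R, ρ 0 = 1 ∧ (∀ κ, NN (ρ κ)) ∧
      B a = ρ.sum fun κ r => r • G (a.1 - b * κ.1, a.2 - c * κ.2) :=
  sp_expansion hb hc hX hG hB a

end Pool.Agent.Results.MP_c41774_al.GreedyCone
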