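import Pool.Agent.Work.MP_c41774_al.Greedy

/-!
# The lower bound inequality `X[a] ≤ B[a]` at a single point
-/

noncomputable section

namespace Pool.Agent.Results.MP_c41774_al.LocalLower

open Pool.Agent.Work.MP_c41774_al LaurentPolynomial

/-- For all `b, c ≥ 1`, every strongly positive basis `B` of `A_v(b,c)` and every `a`:
`X[a] ≤ B[a]` as soon as the finitely many greedy elements `X[a₁ - bp, a₂ - cq]` with
`(p,q) ≠ (0,0)`, `a₁ - bp > b` and `a₂ - cq > c` have nonnegative coefficients. -/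
theorem result (b c : ℕ) (hb : 0 < b) (hc : 0 < c) (X : ℤ → QTorus) (hX : IsClusterSeq b c X)
    (G : ℤ × ℤ → QTorus) (hG : ∀ a, IsGreedy b c a (G a))
    (B : ℤ × ℤ → QTorus) (hB : IsStronglyPositive b c X B) (a : ℤ × ℤ)
    (hpos : ∀ p q : ℕ, (p, q) ≠ (0, 0) → (b : ℤ) < a.1 - b * p → (c : ℤ) < a.2 - c * q →
      ∀ m, NN (G (a.1 - b * p, a.2 - c * q) m)) :
    CoefLE (G a) (B a) :=
  greedy_le_local hb hc hX hG hB a hpos

end Pool.Agent.Results.MP_c41774_al.LocalLower
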